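import Pool.Agent.W369.MF.Simp

/-!
# MF-BORDER: unique reading for words with a turn at the start
-/

set_option autoImplicit false

namespace Pool.Agent.W369.MF
open Pool.Agent.W957.MF Finset

namespace Sp

theorem card_union {T : Finset ℕ} {s t : ℕ} (hst : s ≤ t) (hT : ∀ a ∈ T, 1 ≤ a ∧ a + 2 ≤ s) :
    (T ∪ Icc s t).card + s = T.card + t + 1 := by
  rw [Finset.card_union_of_disjoint, Nat.card_Icc]
  · omega
  · rw [Finset.disjoint_left]
    intro a ha hb
    have h1 := hT a ha
    rw [Finset.mem_Icc] at hb
    omega

/-- the induction -/
theorem border_aux (h : S_PINF) (h1 : S_SIMP) (h7 : S_BORDER7) (z : Conf) (n : ℕ)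
    (Q : ℕ → Bool → Bool) (e : ℕ → Bool) (hP : Pin z n Q e) (hd : dir Q e 3 ≠ dir Q e 5) :
    ∀ l, 7 ≤ l → l ≤ n → ∀ (s t : ℕ) (T : Finset ℕ) (f : ℕ → ℕ), T.card ≤ 1 → 1 ≤ s → s ≤ t →
      t ≤ n → (∀ a ∈ T, 1 ≤ a ∧ a + 2 ≤ s) → Iso z (Icc 1 l) (T ∪ Icc s t) f →
      ∀ k, 3 ≤ k → k ≤ l → dir Q e (k + t - l) = dir Q e k := by
  classical
  intro l hl
  induction l, hl using Nat.le_induction with
  | base =>
    intro hln s t T f hTc hs hst htn hT hf
    have hgp : GP z (Icc 1 7) := by
      intro b
      refine (hP.gp b).mono ?_
      rw [Finset.coe_subset]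
      exact Finset.Icc_subset_Icc_right hln
    obtain ⟨σ, hA, hB⟩ := real_of_iso hgp hf (k := 7) (by rw [Nat.card_Icc])
    exact h7 z n Q e hP s t T σ hln hd hA hs hst htn hTc ⟨hT, hB⟩
  | succ l hl ih =>
    intro hln s t T f hTc hs hst htn hT hf
    have ih' := ih (by omega)
    obtain ⟨B, hB⟩ : ∃ B, B = T ∪ Icc s t := ⟨_, rfl⟩
    rw [← hB] at hf
    have hmemB : ∀ w, w ∈ B ↔ w ∈ T ∨ (s ≤ w ∧ w ≤ t) := by
      intro w
      rw [hB, Finset.mem_union, Finset.mem_Icc]
    have hBc : B.card = l + 1 := by
      rw [← hf.card, Nat.card_Icc]
      omega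
    have hcu := card_union hst hT
    rw [← hB, hBc] at hcu
    have htB : t ∈ B := (hmemB t).2 (Or.inr ⟨hst, le_rfl⟩)
    have hBle : ∀ w ∈ B, 1 ≤ w ∧ w ≤ t := by
      intro w hw
      rcases (hmemB w).1 hw with hw | hw
      · have := hT w hw
        omega
      · omega
    have hLA : l + 1 ∈ Icc 1 (l + 1) := Finset.mem_Icc.2 ⟨by omega, le_rfl⟩
    have hIcc : ∀ u, u ∈ Icc 1 l → u ∈ Icc 1 (l + 1) := by
      intro u hu
      rw [Finset.mem_Icc] at hu ⊢
      omega
    have hpin := h z n Q e hP l (by omega) (by omega)
    by_cases hft : f (l + 1) = t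
    · -- remove the last pins
      have hiso : Iso z (Icc 1 l) (T ∪ Icc s (t - 1)) f := by
        refine ⟨?_, ?_, ?_, ?_⟩
        · intro u hu
          have h2 := hf.mem u (hIcc u hu)
          have h3 : f u ≠ t := by
            intro heq
            have := hf.inj u (hIcc u hu) (l + 1) hLA (heq.trans hft.symm)
            rw [Finset.mem_Icc] at hu
            omega
          rw [Finset.mem_union, Finset.mem_Icc]
          rcases (hmemB _).1 h2 with h4 | h4
          · exact Or.inl h4
          · right; omega
        · intro w hw
          rw [Finset.mem_union, Finset.mem_Icc] at hw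
          have hwt : w ≠ t := by
            rcases hw with hw | hw
            · have := hT w hw
              omega
            · omega
          have hwB : w ∈ B := by
            rw [hmemB]
            rcases hw with hw | hw
            · exact Or.inl hw
            · right; omega
          obtain ⟨u, hu, hfu⟩ := hf.surj w hwB
          refine ⟨u, ?_, hfu⟩
          have h3 : u ≠ l + 1 := by
            intro heq
            rw [heq, hft] at hfu
            exact hwt hfu.symm
          rw [Finset.mem_Icc] at hu ⊢
          omega
        · intro u hu v hv huv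
          exact hf.inj u (hIcc u hu) v (hIcc v hv) huv
        · intro u hu v hv b
          exact hf.ord u (hIcc u hu) v (hIcc v hv) b
      have hih := ih' s (t - 1) T f hTc hs (by omega) (by omega) hT hiso
      intro k hk3 hkl
      by_cases hkL : k = l + 1
      · subst hkL
        have houter : ∀ w ∈ B, w ≠ t →
            sl (Q (l + 1) (!e (l + 1))) (z (!e (l + 1)) w) (z (!e (l + 1)) t) := by
          intro w hw hwt
          obtain ⟨u, hu, hfu⟩ := hf.surj w hw
          have huL : u ≠ l + 1 := by
            intro heq
            rw [heq, hft] at hfu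
            exact hwt hfu.symm
          have hu' := Finset.mem_Icc.1 hu
          have h2 := beyond hP (by omega : 3 ≤ l + 1) hln hu'.1 (by omega : u < l + 1)
          rw [hf.sl hu hLA, hfu, hft] at h2
          exact h2
        have ht1 : t - 1 ∈ B := (hmemB _).2 (Or.inr (by omega))
        have ht2 : t - 2 ∈ B := (hmemB _).2 (Or.inr (by omega))
        have he : e t = e (l + 1) := by
          rcases Bool.eq_or_eq_not (e t) (e (l + 1)) with he | he
          · exact he
          · exfalso
            refine not_outer hP (by omega : 3 ≤ t) htn (by omega : 1 ≤ t - 2) (by omega)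
              (Q (l + 1) (!e (l + 1))) ?_ ?_
            · rw [he]
              exact houter _ ht2 (by omega)
            · rw [he]
              exact houter _ ht1 (by omega)
        have hQ : Q t (!e t) = Q (l + 1) (!e (l + 1)) := by
          have h2 := beyond hP (by omega : 3 ≤ t) htn (by omega : 1 ≤ t - 1) (by omega)
          have h3 := houter (t - 1) ht1 (by omega)
          rw [← he] at h3
          rw [← he]
          exact sl_uniq h2 h3
        rw [show l + 1 + t - (l + 1) = t by omega]
        unfold dir
        rw [he] at hQ ⊢
        rw [hQ]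
      · have := hih k hk3 (by omega)
        rwa [show k + (t - 1) - l = k + t - (l + 1) by omega] at this
    · exfalso
      obtain ⟨b, hb⟩ : ∃ b, b = f (l + 1) := ⟨_, rfl⟩
      rw [← hb] at hft
      have hbB : b ∈ B := by
        rw [hb]
        exact hf.mem _ hLA
      have hbt : b < t := lt_of_le_of_ne (hBle b hbB).2 hft
      have hiso : Iso z (Icc 1 l) (B.erase b) f := by
        refine ⟨?_, ?_, ?_, ?_⟩
        · intro u hu
          refine Finset.mem_erase.2 ⟨?_, hf.mem u (hIcc u hu)⟩
          intro heq
          have := hf.inj u (hIcc u hu) (l + 1) hLA (heq.trans hb)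
          rw [Finset.mem_Icc] at hu
          omega
        · intro w hw
          rw [Finset.mem_erase] at hw
          obtain ⟨u, hu, hfu⟩ := hf.surj w hw.2
          refine ⟨u, ?_, hfu⟩
          have h3 : u ≠ l + 1 := by
            intro heq
            rw [heq, ← hb] at hfu
            exact hw.1 hfu.symm
          rw [Finset.mem_Icc] at hu ⊢
          omega
        · intro u hu v hv huv
          exact hf.inj u (hIcc u hu) v (hIcc v hv) huv
        · intro u hu v hv b
          exact hf.ord u (hIcc u hu) v (hIcc v hv) b
      have hsimple : SimpleSet z (B.erase b) :=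
        simple_iso (h1 z n Q e hP l hl (by omega) hd) hiso
      have hsmall : (B.filter (fun w => w < b)).card ≤ 1 := by
        refine simple_small hsimple ?_ ?_ ?_
        · intro w hw
          rw [Finset.mem_filter] at hw
          exact Finset.mem_erase.2 ⟨by omega, hw.1⟩
        · intro heq
          have h2 : t ∈ B.erase b := Finset.mem_erase.2 ⟨by omega, htB⟩
          rw [← heq, Finset.mem_filter] at h2
          omega
        · intro w hw hwY b'
          rw [Finset.mem_erase] at hw
          have hbw : b < w := by
            by_contra hcon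
            exact hwY (Finset.mem_filter.2 ⟨hw.2, by omega⟩)
          refine ⟨Q w b', fun a ha => ?_⟩
          rw [Finset.mem_filter] at ha
          have h2 := hBle a ha.1
          have h3 := hBle w hw.2
          exact hP.far w a b' (by omega) (by omega) h2.1 (by omega)
      -- the shape of `B` minus `b`
      obtain ⟨s', hbs', hs't, hs'L, hshape⟩ : ∃ s', b < s' ∧ s' ≤ t ∧
          (∀ a ∈ B.filter (fun w => w < b), 1 ≤ a ∧ a + 2 ≤ s') ∧
          B.erase b = B.filter (fun w => w < b) ∪ Icc s' t := by
        by_cases hbT : b ∈ T
        · have hTb : ∀ x ∈ T, x = b := fun x hx => Finset.card_le_one.1 hTc x hx b hbT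
          have h2 := hT b hbT
          refine ⟨s, by omega, hst, ?_, ?_⟩
          · intro a ha
            rw [Finset.mem_filter, hmemB] at ha
            rcases ha.1 with h3 | h3
            · have := hTb a h3
              omega
            · omega
          · ext w
            simp only [Finset.mem_erase, Finset.mem_union, Finset.mem_filter, Finset.mem_Icc, hmemB]
            constructor
            · rintro ⟨h3, h4 | h4⟩
              · exact absurd (hTb w h4) h3
              · right; exact h4
            · rintro (⟨h3 | h3, h4⟩ | h3)
              · have := hTb w h3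
                omega
              · omega
              · exact ⟨by omega, Or.inr h3⟩
        · have hbI : s ≤ b ∧ b ≤ t := by
            rcases (hmemB b).1 hbB with h2 | h2
            · exact absurd h2 hbT
            · exact h2
          refine ⟨b + 1, by omega, by omega, ?_, ?_⟩
          · intro a ha
            rw [Finset.mem_filter] at ha
            have := hBle a ha.1
            omega
          · ext w
            simp only [Finset.mem_erase, Finset.mem_union, Finset.mem_filter, Finset.mem_Icc]
            constructor
            · rintro ⟨h3, h4⟩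
              have := hBle w h4
              by_cases h5 : w < b
              · left; exact ⟨h4, h5⟩
              · right; omega
            · rintro (⟨h3, h4⟩ | h3)
              · exact ⟨by omega, h3⟩
              · refine ⟨by omega, (hmemB w).2 (Or.inr ?_)⟩
                omega
      have hb1 : 1 ≤ b := (hBle b hbB).1
      have hcard' := card_union hs't hs'L
      rw [← hshape, Finset.card_erase_of_mem hbB, hBc] at hcard'
      rw [hshape] at hiso
      have hih := ih' s' t _ f hsmall (by omega) hs't htn hs'L hiso
      have htl : l ≤ t := by omega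
      have hdl : dir Q e t = dir Q e l := by
        have := hih l (by omega) le_rfl
        rwa [show l + t - l = t by omega] at this
      have hetl : e t = e l := congrArg Prod.fst hdl
      have hQtl : Q t (!e t) = Q l (!e l) := congrArg Prod.snd hdl
      have hlA : l ∈ Icc 1 (l + 1) := Finset.mem_Icc.2 ⟨by omega, by omega⟩
      have hout_l : ∀ w ∈ B, w ≠ f l → sl (Q l (!e l)) (z (!e l) w) (z (!e l) (f l)) := by
        intro w hw hwl
        obtain ⟨u, hu, rfl⟩ := hf.surj w hw
        rw [← hf.sl hu hlA]
        have hul : u ≠ l := fun heq => hwl (by rw [heq])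
        have hu' := Finset.mem_Icc.1 hu
        by_cases huL : u = l + 1
        · rw [huL]
          have h2 := inside hP (by omega : 3 ≤ l + 1) hln
          rw [hpin.1, hpin.2] at h2
          exact h2
        · exact beyond hP (by omega) (by omega) hu'.1 (by omega)
      have hflt : f l = t := by
        by_contra hne
        have h2 := hout_l t htB (fun heq => hne heq.symm)
        have h3 := hBle (f l) (hf.mem l hlA)
        have h4 := beyond hP (by omega : 3 ≤ t) htn h3.1 (by omega)
        rw [hetl] at hQtl h4
        rw [hQtl] at h4
        exact sl_asymm h2 h4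
      have hkey : ∀ m, b < m → m < t → 3 ≤ m → m ∈ B →
          (e m = e (l + 1) → Q m (!e m) = !Q (l + 1) (!e (l + 1))) ∧
          (e m = !e (l + 1) → Q m (!e m) = !Q (l + 1) (e (l + 1))) := by
        intro m hbm hmt hm3 hmB
        obtain ⟨u, hu, hfu⟩ := hf.surj m hmB
        have hu' := Finset.mem_Icc.1 hu
        have huL : u ≠ l + 1 := by
          intro heq
          rw [heq, ← hb] at hfu
          omega
        have hul : u ≠ l := by
          intro heq
          rw [heq, hflt] at hfu
          omega
        have hpm := beyond hP hm3 (by omega) hb1 hbm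
        constructor
        · intro he
          have h2 := beyond hP (by omega : 3 ≤ l + 1) hln hu'.1 (by omega : u < l + 1)
          rw [hf.sl hu hLA, hfu, ← hb, ← he, ← sl_not] at h2
          rw [← he]
          exact sl_uniq hpm h2
        · intro he
          have he' : e (l + 1) = !e m := by rw [he, Bool.not_not]
          have h2 := hP.far (l + 1) u (e (l + 1)) (by omega) hln hu'.1 (by omega)
          rw [hf.sl hu hLA, hfu, ← hb, he', ← sl_not] at h2
          rw [he']
          exact sl_uniq hpm h2
      have hm : ∀ k, 3 ≤ k → k ≤ 5 → b < k + t - l ∧ k + t - l < t ∧ 3 ≤ k + t - l ∧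
          k + t - l ∈ B := by
        intro k hk1 hk2
        refine ⟨by omega, by omega, by omega, ?_⟩
        have h2 : k + t - l ∈ B.erase b := by
          rw [hshape, Finset.mem_union, Finset.mem_Icc]
          right
          omega
        exact Finset.mem_of_mem_erase h2
      have hk3 := hkey _ (hm 3 le_rfl (by omega)).1 (hm 3 le_rfl (by omega)).2.1
        (hm 3 le_rfl (by omega)).2.2.1 (hm 3 le_rfl (by omega)).2.2.2
      have hk5 := hkey _ (hm 5 (by omega) le_rfl).1 (hm 5 (by omega) le_rfl).2.1
        (hm 5 (by omega) le_rfl).2.2.1 (hm 5 (by omega) le_rfl).2.2.2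
      have hd3 := hih 3 le_rfl (by omega)
      have hd5 := hih 5 (by omega) (by omega)
      have he3 : e (3 + t - l) = e 3 := congrArg Prod.fst hd3
      have he5 : e (5 + t - l) = e 5 := congrArg Prod.fst hd5
      have h53 := e53 h hP (by omega)
      apply hd
      rw [← hd3, ← hd5]
      unfold dir
      rcases Bool.eq_or_eq_not (e 3) (e (l + 1)) with he | he
      · rw [hk3.1 (he3.trans he), hk5.1 (he5.trans (h53.trans he)), he3, he5, h53]
      · rw [hk3.2 (he3.trans he), hk5.2 (he5.trans (h53.trans he)), he3, he5, h53]

end Sp

open Sp in
theorem t_BORDER (h : S_PINF) (h1 : S_SIMP) (h7 : S_BORDER7) : S_BORDER := by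
  classical
  intro z n Q e hP l s t T σ hl hln hd hA hs hst htn hB
  obtain ⟨hT, hB⟩ := hB
  obtain ⟨f, hf⟩ := iso_of_real hA hB
  have hc := card_union hst hT
  rw [hB.1] at hc
  have hTc : T.card ≤ 1 := by
    refine simple_small (simple_iso (h1 z n Q e hP l hl hln hd) hf) Finset.subset_union_left ?_ ?_
    · intro heq
      have h2 : t ∈ T ∪ Icc s t := Finset.mem_union_right _ (Finset.mem_Icc.2 ⟨hst, le_rfl⟩)
      rw [← heq] at h2
      have := hT t h2
      omega
    · intro w hw hwT b
      rw [Finset.mem_union, Finset.mem_Icc] at hw
      have hw' : s ≤ w ∧ w ≤ t := by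
        rcases hw with hw | hw
        · exact absurd hw hwT
        · exact hw
      refine ⟨Q w b, fun a ha => ?_⟩
      have h2 := hT a ha
      exact hP.far w a b (by omega) (by omega) h2.1 (by omega)
  refine ⟨hTc, by omega, ?_⟩
  exact border_aux h h1 h7 z n Q e hP hd l hl hln s t T f hTc hs hst htn hT hf

end Pool.Agent.W369.MF
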