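import Pool.Agent.W957.MF.Stm2

/-!
# MF-NFQ: recursion for the signed number of sets avoiding a family of intervals
-/

set_option autoImplicit false

namespace Pool.Agent.W369.MF
open Pool.Agent.W957.MF Finset

namespace Nq

open Classical in
/-- signed number of `S ⊆ [b,n]` such that `[a,b-1] ∪ S` avoids the family -/
noncomputable def N (F : ℕ → ℕ → Prop) (n a b : ℕ) : ℤ :=
  ∑ S ∈ (Icc b n).powerset, if (∀ s e, F s e → ¬ Icc s e ⊆ Ico a b ∪ S) then (-1 : ℤ) ^ S.card else 0

/-- no interval of the family inside `[a,b-1]` -/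
def ok (F : ℕ → ℕ → Prop) (a b : ℕ) : Prop := ∀ s e, F s e → a ≤ s → ¬ e < b

theorem N_last (F : ℕ → ℕ → Prop) (n a : ℕ) (hF : ∀ s e, F s e → 1 ≤ s ∧ s ≤ e ∧ e ≤ n)
    (h : ok F a (n + 1)) : N F n a (n + 1) = 1 := by
  classical
  unfold N
  rw [Finset.Icc_eq_empty (by omega), Finset.powerset_empty, Finset.sum_singleton, if_pos]
  · simp
  · intro s e hse hsub
    rw [Finset.union_empty] at hsub
    have h1 := hF s e hse
    have h2 := hsub (Finset.mem_Icc.2 ⟨le_rfl, h1.2.1⟩)
    rw [Finset.mem_Ico] at h2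
    exact h s e hse h2.1 (by omega)

theorem N_zero (F : ℕ → ℕ → Prop) (n a b : ℕ) (h : ¬ ok F a b) : N F n a b = 0 := by
  classical
  unfold N
  refine Finset.sum_eq_zero fun S _ => ?_
  rw [if_neg]
  intro hcon
  apply h
  intro s e hse has hlt
  refine hcon s e hse ?_
  intro x hx
  rw [Finset.mem_Icc] at hx
  rw [Finset.mem_union, Finset.mem_Ico]
  left
  omega

theorem N_step (F : ℕ → ℕ → Prop) (n a b : ℕ) (hF : ∀ s e, F s e → 1 ≤ s ∧ s ≤ e ∧ e ≤ n)
    (hab : a ≤ b) (hbn : b ≤ n) (h : ok F a b) :
    N F n a b = N F n (b + 1) (b + 1) - N F n a (b + 1) := by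
  classical
  unfold N
  have h1 : Icc b n = insert b (Icc (b + 1) n) := by
    ext x
    simp only [Finset.mem_Icc, Finset.mem_insert]
    omega
  have h2 : b ∉ Icc (b + 1) n := by
    rw [Finset.mem_Icc]
    omega
  rw [h1, Finset.sum_powerset_insert h2, sub_eq_add_neg, ← Finset.sum_neg_distrib]
  refine congrArg₂ (· + ·) (Finset.sum_congr rfl fun S hS => ?_) (Finset.sum_congr rfl fun S hS => ?_)
  · have hS' : ∀ x ∈ S, b + 1 ≤ x := fun x hx => (Finset.mem_Icc.1 (Finset.mem_powerset.1 hS hx)).1
    refine if_congr ?_ rfl rfl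
    rw [Finset.Ico_self, Finset.empty_union]
    constructor
    · intro h3 s e hse hsub
      exact h3 s e hse (hsub.trans Finset.subset_union_right)
    · intro h3 s e hse hsub
      have h4 := hF s e hse
      have hs := hsub (Finset.mem_Icc.2 ⟨le_rfl, h4.2.1⟩)
      have he := hsub (Finset.mem_Icc.2 ⟨h4.2.1, le_rfl⟩)
      have hnb : ¬ (s ≤ b ∧ b ≤ e) := by
        intro hb
        have := hsub (Finset.mem_Icc.2 hb)
        rw [Finset.mem_union, Finset.mem_Ico] at this
        rcases this with h5 | h5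
        · omega
        · have := hS' b h5
          omega
      rw [Finset.mem_union, Finset.mem_Ico] at hs he
      rcases hs with hs | hs
      · have heb : e < b := by omega
        exact h s e hse hs.1 heb
      · have h5 := hS' s hs
        refine h3 s e hse fun x hx => ?_
        have h6 := hsub hx
        rw [Finset.mem_Icc] at hx
        rw [Finset.mem_union, Finset.mem_Ico] at h6
        rcases h6 with h6 | h6
        · omega
        · exact h6
  · have hbS : b ∉ S := fun hb => h2 (Finset.mem_powerset.1 hS hb)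
    have h3 : Ico a b ∪ insert b S = Ico a (b + 1) ∪ S := by
      ext x
      simp only [Finset.mem_union, Finset.mem_Ico, Finset.mem_insert]
      constructor
      · rintro (h4 | h4 | h4)
        · left; omega
        · left; omega
        · right; exact h4
      · rintro (h4 | h4)
        · by_cases hx : x = b
          · right; left; exact hx
          · left; omega
        · right; right; exact h4
    rw [h3, Finset.card_insert_of_notMem hbS, pow_succ]
    split_ifs
    · ring
    · ring

noncomputable def V (F : ℕ → ℕ → Prop) (n a : ℕ) : ℤ := (-1) ^ (n + 1 + a) * N F n a a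

theorem V_eq (F : ℕ → ℕ → Prop) (n a : ℕ) (hF : ∀ s e, F s e → 1 ≤ s ∧ s ≤ e ∧ e ≤ n) :
    ∀ b, a ≤ b → b ≤ n + 1 → ok F a b →
      V F n a = (-1) ^ (n + 1 + b) * N F n a b - ∑ t ∈ Ico (a + 1) (b + 1), V F n t := by
  intro b hab
  induction b, hab using Nat.le_induction with
  | base =>
    intro _ _
    rw [Finset.Ico_self, Finset.sum_empty, sub_zero]
    rfl
  | succ b hab ih =>
    intro hb hok
    have hok' : ok F a b := fun s e hse has hlt => hok s e hse has (by omega)
    rw [ih (by omega) hok', N_step F n a b hF hab (by omega) hok', Finset.sum_Ico_succ_top (by omega : a + 1 ≤ b + 1)]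
    have h1 : V F n (b + 1) = (-1) ^ (n + 1 + (b + 1)) * N F n (b + 1) (b + 1) := rfl
    rw [h1, ← add_assoc, pow_succ]
    ring

end Nq

open Nq in
theorem t_NFQ : S_NFQ := by
  classical
  intro F n hn hF
  refine ⟨fun a => ∑ t ∈ Ico a (n + 2), V F n t, ?_, ?_, ?_, ?_, ?_⟩
  · show ∑ t ∈ Ico (n + 1) (n + 2), V F n t = 1
    have h1 : ok F (n + 1) (n + 1) := by
      intro s e hse has
      have := hF s e hse
      omega
    rw [Finset.sum_Ico_succ_top (by omega), Finset.Ico_self, Finset.sum_empty, zero_add, V,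
      N_last F n (n + 1) hF h1, mul_one, ← two_mul, pow_mul]
    norm_num
  · show ∑ t ∈ Ico (n + 2) (n + 2), V F n t = 0
    rw [Finset.Ico_self, Finset.sum_empty]
  · intro a ha han h
    show ∑ t ∈ Ico a (n + 2), V F n t = 1
    have hok : ok F a (n + 1) := by
      intro s e hse has
      have := h s e hse
      omega
    rw [Finset.sum_eq_sum_Ico_succ_bot (by omega), V_eq F n a hF (n + 1) (by omega) le_rfl hok,
      N_last F n a hF hok, mul_one, ← two_mul, pow_mul]
    norm_num
  · intro a E ha han hex hmin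
    show ∑ t ∈ Ico a (n + 2), V F n t = ∑ t ∈ Ico (E + 2) (n + 2), V F n t
    obtain ⟨s, has, hsE⟩ := hex
    have h1 := hF s E hsE
    have hok : ok F a E := by
      intro s' e' h2 h3 h4
      have := hmin s' e' h2 h3
      omega
    have hnok : ¬ ok F a (E + 1) := by
      intro h2
      exact h2 s E hsE has (by omega)
    rw [Finset.sum_eq_sum_Ico_succ_bot (by omega), V_eq F n a hF E (by omega) (by omega) hok,
      N_step F n a E hF (by omega) h1.2.2 hok, N_zero F n a (E + 1) hnok, sub_zero,
      ← Finset.sum_Ico_consecutive _ (by omega : a + 1 ≤ E + 1) (by omega : E + 1 ≤ n + 2),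
      Finset.sum_eq_sum_Ico_succ_bot (by omega : E + 1 < n + 2)]
    have h3 : V F n (E + 1) = (-1) ^ (n + 1 + (E + 1)) * N F n (E + 1) (E + 1) := rfl
    rw [h3, ← add_assoc (n + 1) E 1]
    ring
  · show NF F n = (-1) ^ n * (∑ t ∈ Ico 1 (n + 2), V F n t - ∑ t ∈ Ico 2 (n + 2), V F n t)
    rw [Finset.sum_eq_sum_Ico_succ_bot (by omega : 1 < n + 2), add_sub_cancel_right, V, NF, N,
      Finset.sum_filter, Finset.Ico_self]
    rw [← mul_assoc, ← pow_add, show n + (n + 1 + 1) = 2 * (n + 1) by ring, pow_mul]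
    norm_num

end Pool.Agent.W369.MF
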