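import Pool.Agent.W957.MF.Stm2

/-!
# MF-SIMP and MF-BORDER: unique reading of pin sequences
-/

set_option autoImplicit false

namespace Pool.Agent.W369.MF
open Pool.Agent.W957.MF Finset

namespace Sp

theorem sl_not (s : Bool) (a b : ℤ) : sl (!s) a b ↔ sl s b a := by
  cases s <;> exact Iff.rfl

theorem sl_asymm {s : Bool} {a b : ℤ} (h : sl s a b) (h' : sl s b a) : False := by
  cases s
  · exact lt_asymm (h : b < a) h'
  · exact lt_asymm (h : a < b) h'

theorem sl_trans {s : Bool} {a b c : ℤ} (h : sl s a b) (h' : sl s b c) : sl s a c := by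
  cases s
  · exact lt_trans (h' : c < b) h
  · exact lt_trans (h : a < b) h'

theorem sl_ne {s : Bool} {a b : ℤ} (h : a ≠ b) (h' : ¬ sl s a b) : sl s b a := by
  cases s
  · exact lt_of_le_of_ne (not_lt.1 (h' : ¬ b < a)) h
  · exact lt_of_le_of_ne (not_lt.1 (h' : ¬ a < b)) h.symm

/-- same pair, same sign -/
theorem sl_uniq {s s' : Bool} {a b : ℤ} (h : sl s a b) (h' : sl s' a b) : s = s' := by
  rcases Bool.eq_or_eq_not s s' with h1 | h1
  · exact h1
  · rw [h1, sl_not] at h
    exact (sl_asymm h h').elim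

theorem beyond {z : Conf} {n : ℕ} {Q : ℕ → Bool → Bool} {e : ℕ → Bool} (hP : Pin z n Q e)
    {m i : ℕ} (hm : 3 ≤ m) (hmn : m ≤ n) (hi : 1 ≤ i) (him : i < m) :
    sl (Q m (!e m)) (z (!e m) i) (z (!e m) m) := by
  by_cases h : i + 2 ≤ m
  · exact hP.far m i (!e m) hm hmn hi h
  · have : i = m - 1 := by omega
    rw [this]
    exact hP.nearE m hm hmn

/-- `m` is strictly inside `m - 1` on the axis `e m` -/
theorem inside {z : Conf} {n : ℕ} {Q : ℕ → Bool → Bool} {e : ℕ → Bool} (hP : Pin z n Q e)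
    {m : ℕ} (hm : 3 ≤ m) (hmn : m ≤ n) : sl (Q m (e m)) (z (e m) m) (z (e m) (m - 1)) :=
  (sl_not _ _ _).1 (hP.nearF m hm hmn)

/-- a pin is not outermost on its flipped axis -/
theorem not_outer {z : Conf} {n : ℕ} {Q : ℕ → Bool → Bool} {e : ℕ → Bool} (hP : Pin z n Q e)
    {m i : ℕ} (hm : 3 ≤ m) (hmn : m ≤ n) (hi : 1 ≤ i) (him : i + 2 ≤ m) (s : Bool)
    (h1 : sl s (z (e m) i) (z (e m) m)) (h2 : sl s (z (e m) (m - 1)) (z (e m) m)) : False := by
  have h3 := hP.far m i (e m) hm hmn hi him
  have h4 := sl_uniq h1 h3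
  rw [h4] at h2
  exact sl_asymm h2 (inside hP hm hmn)

theorem e53 (h : S_PINF) {z : Conf} {n : ℕ} {Q : ℕ → Bool → Bool} {e : ℕ → Bool} (hP : Pin z n Q e)
    (hn : 5 ≤ n) : e 5 = e 3 := by
  rw [(h z n Q e hP 4 (by omega) (by omega)).1, (h z n Q e hP 3 (by omega) (by omega)).1, Bool.not_not]

end Sp

open Sp in
theorem t_SIMP (h : S_PINF) (h7 : S_SIMP7) : S_SIMP := by
  classical
  intro z n Q e hP l hl
  induction l, hl using Nat.le_induction with
  | base => exact fun hln hd => h7 z n Q e hP hln hd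
  | succ l hl ih =>
    intro hln hd
    have ih' := ih (by omega) hd
    intro Y hY hc hne
    by_contra hcon
    have hcon' : ∀ w, 1 ≤ w → w ≤ l + 1 → w ∉ Y → ∀ b s, ∀ a ∈ Y, ∀ c ∈ Y,
        sl s (z b a) (z b w) → sl s (z b w) (z b c) → False := by
      intro w hw1 hw2 hwY b s a ha c hc h1 h2
      apply hcon
      cases s
      · exact ⟨w, Finset.mem_Icc.2 ⟨hw1, hw2⟩, hwY, b, c, hc, a, ha, h2, h1⟩
      · exact ⟨w, Finset.mem_Icc.2 ⟨hw1, hw2⟩, hwY, b, a, ha, c, hc, h1, h2⟩
    have hpin := h z n Q e hP l (by omega) (by omega)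
    have hdich : (Y.erase (l + 1)).card ≤ 1 ∨ Y.erase (l + 1) = Icc 1 l := by
      by_contra hno
      push Not at hno
      have hsub : Y.erase (l + 1) ⊆ Icc 1 l := by
        intro x hx
        rw [Finset.mem_erase] at hx
        have := Finset.mem_Icc.1 (hY hx.2)
        rw [Finset.mem_Icc]
        omega
      obtain ⟨w, hw, hwY, b, a, ha, c, hc', h1, h2⟩ := ih' _ hsub (by omega) hno.2
      rw [Finset.mem_Icc] at hw
      have hwY' : w ∉ Y := fun hh => hwY (Finset.mem_erase.2 ⟨by omega, hh⟩)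
      exact hcon' w hw.1 (by omega) hwY' b true a (Finset.mem_of_mem_erase ha) c
        (Finset.mem_of_mem_erase hc') h1 h2
    rcases hdich with hsmall | hfull
    · -- `Y = {y, l + 1}`
      have hL : l + 1 ∈ Y := by
        by_contra hh
        rw [Finset.erase_eq_of_notMem hh] at hsmall
        omega
      have hcard := Finset.card_erase_of_mem hL
      have h1 : (Y.erase (l + 1)).card = 1 := by omega
      obtain ⟨y, hy⟩ := Finset.card_eq_one.1 h1
      have hyY : y ∈ Y := Finset.mem_of_mem_erase (by rw [hy]; exact Finset.mem_singleton_self y)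
      have hyne : y ≠ l + 1 := Finset.ne_of_mem_erase (by rw [hy]; exact Finset.mem_singleton_self y)
      have hyI := Finset.mem_Icc.1 (hY hyY)
      have hother : ∀ w, w ≤ l → w ≠ y → w ∉ Y := by
        intro w hw hwy hwY
        have : w ∈ Y.erase (l + 1) := Finset.mem_erase.2 ⟨by omega, hwY⟩
        rw [hy, Finset.mem_singleton] at this
        exact hwy this
      by_cases hyl : y = l
      · subst hyl
        have hfar1 := hP.far (y + 1) 1 (e y) (by omega) hln le_rfl (by omega)
        have hfar2 := hP.far (y + 1) (y - 1) (e y) (by omega) hln (by omega) (by omega)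
        have hf := hP.far y 1 (e y) (by omega) (by omega) le_rfl (by omega)
        have hin := inside hP (by omega : 3 ≤ y) (by omega)
        rcases Bool.eq_or_eq_not (Q (y + 1) (e y)) (Q y (e y)) with hq | hq
        · rw [hq] at hfar2
          exact hcon' (y - 1) (by omega) (by omega) (hother _ (by omega) (by omega)) (e y) _ y hyY
            (y + 1) hL hin hfar2
        · rw [hq, sl_not] at hfar1
          exact hcon' 1 le_rfl (by omega) (hother _ (by omega) (by omega)) (e y) _ (y + 1) hL y hyY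
            hfar1 hf
      · have hgp : ∀ b i, 1 ≤ i → i ≤ l → i ≠ y → z b y ≠ z b i := by
          intro b i hi1 hi2 hiy heq
          exact hiy ((hP.gp b (by simp only [Finset.coe_Icc, Set.mem_Icc]; omega)
            (by simp only [Finset.coe_Icc, Set.mem_Icc]; omega) heq).symm)
        have outer1 : ∀ i, 1 ≤ i → i + 1 ≤ l → i ≠ y →
            sl (Q (l + 1) (e (l + 1))) (z (e (l + 1)) i) (z (e (l + 1)) y) := by
          intro i hi1 hi2 hiy
          refine sl_ne (hgp _ i hi1 (by omega) hiy) fun h1 => ?_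
          exact hcon' i hi1 (by omega) (hother i (by omega) hiy) _ _ y hyY (l + 1) hL h1
            (hP.far (l + 1) i _ (by omega) hln hi1 (by omega))
        have outer2 : ∀ i, 1 ≤ i → i ≤ l → i ≠ y →
            sl (Q (l + 1) (!e (l + 1))) (z (!e (l + 1)) i) (z (!e (l + 1)) y) := by
          intro i hi1 hi2 hiy
          refine sl_ne (hgp _ i hi1 (by omega) hiy) fun h1 => ?_
          exact hcon' i hi1 (by omega) (hother i (by omega) hiy) _ _ y hyY (l + 1) hL h1
            (beyond hP (by omega) hln hi1 (by omega))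
        by_cases hy3 : 3 ≤ y
        · rcases Bool.eq_or_eq_not (e y) (e (l + 1)) with he | he
          · refine not_outer hP hy3 (by omega) le_rfl (by omega) (Q (l + 1) (e (l + 1))) ?_ ?_
            · rw [he]
              exact outer1 1 le_rfl (by omega) (by omega)
            · rw [he]
              exact outer1 (y - 1) (by omega) (by omega) (by omega)
          · refine not_outer hP hy3 (by omega) le_rfl (by omega) (Q (l + 1) (!e (l + 1))) ?_ ?_
            · rw [he]
              exact outer2 1 le_rfl (by omega) (by omega)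
            · rw [he]
              exact outer2 (y - 1) (by omega) (by omega) (by omega)
        · have hA : ∀ m, 3 ≤ m → m + 1 ≤ l → e m = e (l + 1) → Q m (!e m) = !Q (l + 1) (!e (l + 1)) := by
            intro m hm1 hm2 hem
            have h1 := beyond hP hm1 (by omega) hyI.1 (by omega : y < m)
            have h2 := outer2 m (by omega) (by omega) (by omega)
            rw [← sl_not, ← hem] at h2
            rw [← hem]
            exact sl_uniq h1 h2
          have hB : ∀ m, 3 ≤ m → m + 1 ≤ l → e m = !e (l + 1) → Q m (!e m) = !Q (l + 1) (e (l + 1)) := by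
            intro m hm1 hm2 hem
            have h1 := beyond hP hm1 (by omega) hyI.1 (by omega : y < m)
            have h2 := outer1 m (by omega) (by omega) (by omega)
            have hem' : e (l + 1) = !e m := by rw [hem, Bool.not_not]
            rw [← sl_not] at h2
            rw [hem'] at h2
            rw [hem']
            exact sl_uniq h1 h2
          have h53 := e53 h hP (by omega)
          apply hd
          unfold dir
          rcases Bool.eq_or_eq_not (e 3) (e (l + 1)) with he | he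
          · rw [hA 3 (by omega) (by omega) he, hA 5 (by omega) (by omega) (h53.trans he), h53]
          · rw [hB 3 (by omega) (by omega) he, hB 5 (by omega) (by omega) (h53.trans he), h53]
    · have hL : l + 1 ∉ Y := by
        intro hL
        apply hne
        rw [← Finset.insert_erase hL, hfull]
        ext x
        simp only [Finset.mem_insert, Finset.mem_Icc]
        omega
      have hmem : ∀ i, 1 ≤ i → i ≤ l → i ∈ Y := by
        intro i h1 h2
        have : i ∈ Y.erase (l + 1) := by
          rw [hfull, Finset.mem_Icc]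
          exact ⟨h1, h2⟩
        exact Finset.mem_of_mem_erase this
      exact hcon' (l + 1) (by omega) le_rfl hL (e (l + 1)) (Q (l + 1) (e (l + 1))) 1
        (hmem 1 le_rfl (by omega)) l (hmem l (by omega) le_rfl)
        (hP.far (l + 1) 1 _ (by omega) hln le_rfl (by omega)) (inside hP (by omega) hln)

/-! ### Isomorphisms of point sets -/

namespace Sp

/-- isomorphism of point sets -/
structure Iso (z : Conf) (A B : Finset ℕ) (f : ℕ → ℕ) : Prop where
  mem : ∀ u ∈ A, f u ∈ B
  surj : ∀ w ∈ B, ∃ u ∈ A, f u = w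
  inj : ∀ u ∈ A, ∀ v ∈ A, f u = f v → u = v
  ord : ∀ u ∈ A, ∀ v ∈ A, ∀ b, z b u < z b v ↔ z b (f u) < z b (f v)

theorem Iso.sl {z : Conf} {A B : Finset ℕ} {f : ℕ → ℕ} (hf : Iso z A B f) {u v : ℕ} (hu : u ∈ A)
    (hv : v ∈ A) (b s : Bool) : sl s (z b u) (z b v) ↔ sl s (z b (f u)) (z b (f v)) := by
  cases s
  · exact hf.ord v hv u hu b
  · exact hf.ord u hu v hv b

theorem Iso.image {z : Conf} {A B : Finset ℕ} {f : ℕ → ℕ} (hf : Iso z A B f) : A.image f = B := by
  ext w
  rw [Finset.mem_image]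
  constructor
  · rintro ⟨u, hu, rfl⟩
    exact hf.mem u hu
  · exact hf.surj w

theorem Iso.card {z : Conf} {A B : Finset ℕ} {f : ℕ → ℕ} (hf : Iso z A B f) : A.card = B.card := by
  rw [← hf.image, Finset.card_image_of_injOn]
  intro u hu v hv h
  exact hf.inj u hu v hv h

theorem occ_inj {z : Conf} {k : ℕ} {φ : Fin k → ℕ} (h : ∀ i j, i < j ↔ z true (φ i) < z true (φ j)) :
    Function.Injective φ := by
  intro i j hij
  rcases lt_trichotomy i j with h1 | h1 | h1
  · have := (h i j).1 h1
    rw [hij] at this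
    exact absurd this (lt_irrefl _)
  · exact h1
  · have := (h j i).1 h1
    rw [hij] at this
    exact absurd this (lt_irrefl _)

theorem occ_surj {A : Finset ℕ} {k : ℕ} {φ : Fin k → ℕ} (hA : A.card = k) (hφ : ∀ i, φ i ∈ A)
    (hi : Function.Injective φ) : ∀ w ∈ A, ∃ i, φ i = w := by
  classical
  have h1 : Finset.univ.image φ = A := by
    refine Finset.eq_of_subset_of_card_le ?_ ?_
    · intro w hw
      obtain ⟨i, _, rfl⟩ := Finset.mem_image.1 hw
      exact hφ i
    · rw [Finset.card_image_of_injective _ hi, Finset.card_univ, Fintype.card_fin, hA]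
  intro w hw
  rw [← h1] at hw
  obtain ⟨i, _, hi⟩ := Finset.mem_image.1 hw
  exact ⟨i, hi⟩

theorem iso_of_real {z : Conf} {A B : Finset ℕ} {k : ℕ} {σ : Equiv.Perm (Fin k)} (hA : Real z A σ)
    (hB : Real z B σ) : ∃ f, Iso z A B f := by
  classical
  obtain ⟨hAc, φ, hφ, hφx, hφy⟩ := hA
  obtain ⟨hBc, ψ, hψ, hψx, hψy⟩ := hB
  have hφi := occ_inj hφx
  have hψi := occ_inj hψx
  have hφs := occ_surj hAc hφ hφi
  have hψs := occ_surj hBc hψ hψi
  have hex : ∀ u, ∃ w, ∀ i, φ i = u → w = ψ i := by
    intro u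
    by_cases h : ∃ i, φ i = u
    · obtain ⟨i, hi⟩ := h
      refine ⟨ψ i, fun j hj => ?_⟩
      rw [hφi (hi.trans hj.symm)]
    · exact ⟨0, fun i hi => absurd ⟨i, hi⟩ h⟩
  choose f hf using hex
  have hfφ : ∀ i, f (φ i) = ψ i := fun i => hf _ i rfl
  refine ⟨f, ?_, ?_, ?_, ?_⟩
  · intro u hu
    obtain ⟨i, rfl⟩ := hφs u hu
    rw [hfφ]
    exact hψ i
  · intro w hw
    obtain ⟨i, rfl⟩ := hψs w hw
    exact ⟨φ i, hφ i, hfφ i⟩
  · intro u hu v hv huv
    obtain ⟨i, rfl⟩ := hφs u hu
    obtain ⟨j, rfl⟩ := hφs v hv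
    rw [hfφ, hfφ] at huv
    rw [hψi huv]
  · intro u hu v hv b
    obtain ⟨i, rfl⟩ := hφs u hu
    obtain ⟨j, rfl⟩ := hφs v hv
    rw [hfφ, hfφ]
    cases b
    · rw [← hφy i j, ← hψy i j]
    · rw [← hφx i j, ← hψx i j]

/-- every finite set in general position has a pattern -/
theorem exists_pattern {z : Conf} {A : Finset ℕ} (hgp : GP z A) {k : ℕ} (hk : A.card = k) :
    ∃ σ : Equiv.Perm (Fin k), Occ z A σ := by
  classical
  have hX : (A.image (z true)).card = k := by
    rw [Finset.card_image_of_injOn (hgp true), hk]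
  have hY : (A.image (z false)).card = k := by
    rw [Finset.card_image_of_injOn (hgp false), hk]
  have hex : ∀ i : Fin k, ∃ a ∈ A, z true a = (A.image (z true)).orderEmbOfFin hX i := by
    intro i
    have := Finset.orderEmbOfFin_mem (A.image (z true)) hX i
    obtain ⟨a, ha, hae⟩ := Finset.mem_image.1 this
    exact ⟨a, ha, hae⟩
  choose φ hφ hφe using hex
  have hφx : ∀ i j, i < j ↔ z true (φ i) < z true (φ j) := by
    intro i j
    rw [hφe, hφe, OrderEmbedding.lt_iff_lt]
  have hφi := occ_inj hφx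
  let τ : Fin k → Fin k := fun i => ((A.image (z false)).orderIsoOfFin hY).symm
    ⟨z false (φ i), Finset.mem_image_of_mem _ (hφ i)⟩
  have hτ : ∀ i j, τ i < τ j ↔ z false (φ i) < z false (φ j) := by
    intro i j
    show ((A.image (z false)).orderIsoOfFin hY).symm _ < ((A.image (z false)).orderIsoOfFin hY).symm _ ↔ _
    rw [OrderIso.lt_iff_lt]
    exact Iff.rfl
  have hτi : Function.Injective τ := by
    intro i j hij
    have h1 : ¬ z false (φ i) < z false (φ j) := by
      rw [← hτ, hij]
      exact lt_irrefl _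
    have h2 : ¬ z false (φ j) < z false (φ i) := by
      rw [← hτ, hij]
      exact lt_irrefl _
    have h3 : z false (φ i) = z false (φ j) := le_antisymm (not_lt.1 h2) (not_lt.1 h1)
    exact hφi (hgp false (hφ i) (hφ j) h3)
  refine ⟨Equiv.ofBijective τ (Finite.injective_iff_bijective.1 hτi), φ, hφ, hφx, ?_⟩
  intro i j
  exact hτ i j

theorem real_of_iso {z : Conf} {A B : Finset ℕ} {f : ℕ → ℕ} (hgp : GP z A) (hf : Iso z A B f) {k : ℕ}
    (hk : A.card = k) : ∃ σ : Equiv.Perm (Fin k), Real z A σ ∧ Real z B σ := by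
  obtain ⟨σ, φ, hφ, hφx, hφy⟩ := exists_pattern hgp hk
  refine ⟨σ, ⟨hk, φ, hφ, hφx, hφy⟩, ⟨by rw [← hf.card, hk], fun i => f (φ i), ?_, ?_, ?_⟩⟩
  · exact fun i => hf.mem _ (hφ i)
  · intro i j
    rw [← hf.ord _ (hφ i) _ (hφ j) true]
    exact hφx i j
  · intro i j
    rw [← hf.ord _ (hφ i) _ (hφ j) false]
    exact hφy i j

theorem simple_iso {z : Conf} {A B : Finset ℕ} {f : ℕ → ℕ} (hA : SimpleSet z A) (hf : Iso z A B f) :
    SimpleSet z B := by
  classical
  intro Y hY hc hne
  have himg : (A.filter (fun u => f u ∈ Y)).image f = Y := by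
    ext w
    rw [Finset.mem_image]
    constructor
    · rintro ⟨u, hu, rfl⟩
      exact (Finset.mem_filter.1 hu).2
    · intro hw
      obtain ⟨u, hu, rfl⟩ := hf.surj w (hY hw)
      exact ⟨u, Finset.mem_filter.2 ⟨hu, hw⟩, rfl⟩
  have hcard : (A.filter (fun u => f u ∈ Y)).card = Y.card := by
    conv_rhs => rw [← himg]
    rw [Finset.card_image_of_injOn]
    intro u hu v hv h
    exact hf.inj u (Finset.mem_filter.1 hu).1 v (Finset.mem_filter.1 hv).1 h
  obtain ⟨w, hw, hwX, b, a, ha, c, hc', h1, h2⟩ := hA (A.filter (fun u => f u ∈ Y))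
    (Finset.filter_subset _ _) (by omega) (by
      intro heq
      apply hne
      rw [← himg, heq, hf.image])
  rw [Finset.mem_filter] at hwX ha hc'
  refine ⟨f w, hf.mem w hw, fun h => hwX ⟨hw, h⟩, b, f a, ha.2, f c, hc'.2, ?_, ?_⟩
  · exact (hf.ord a ha.1 w hw b).1 h1
  · exact (hf.ord w hw c hc'.1 b).1 h2

/-- simplicity in terms of uniform separation -/
theorem simple_small {z : Conf} {B Y : Finset ℕ} (hB : SimpleSet z B) (hY : Y ⊆ B) (hne : Y ≠ B)
    (hu : ∀ w ∈ B, w ∉ Y → ∀ b, ∃ s, ∀ a ∈ Y, sl s (z b a) (z b w)) : Y.card ≤ 1 := by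
  by_contra hc
  obtain ⟨w, hw, hwY, b, a, ha, c, hc', h1, h2⟩ := hB Y hY (by omega) hne
  obtain ⟨s, hs⟩ := hu w hw hwY b
  have h3 := hs a ha
  have h4 := hs c hc'
  cases s
  · exact lt_asymm (h3 : z b w < z b a) h1
  · exact lt_asymm (h4 : z b c < z b w) h2

end Sp

end Pool.Agent.W369.MF
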